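import Pool.Agent.Lib.MP_72b52d_lc.CR.Final

/-!
# MP_72b52d_lc : consistency of a Cantor set which reflects non-meagreness by translations

There is a countable transitive model `N` of `ZFC` and a Cantor set `K` of real numbers such that
in `N` every non-meagre set `X` of reals has a translate `X + t` for which `K ∩ (X + t)` is not
meagre in `K`.
-/

namespace Pool.Agent.Results.MP_72b52d_lc.CantorReflection

open Pool.Agent.CR

theorem result : ∃ N : Set V, N.Countable ∧ IsTransModelZFC N ∧
    ∃ K : Set ℝ, (IsCompact K ∧ K.Nonempty ∧ Perfect K ∧ IsTotallyDisconnected K) ∧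
      CantorIn N (K ∩ RN N) ∧
      ∀ X : Set ℝ, setR X ∈ N → ¬ MeagreIn N (RN N) X →
        ∃ t ∈ RN N, ¬ MeagreIn N (K ∩ RN N) (K ∩ RN N ∩ {y | ∃ x ∈ X, y = x + t}) :=
  main

end Pool.Agent.Results.MP_72b52d_lc.CantorReflection
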