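import Mathlib
import Pool.Agent.Lib.MP_72b52d_lc.Recur
import Pool.Agent.Lib.MP_72b52d_lc.Ternary

/-!
Cantor sets with a dense set of portions of lower box dimension less than one never answer the
question positively: there is a non-meagre set all of whose translates meet them in relatively
meagre sets.
-/

open Set Filter Topology

namespace Pool.Agent.Results.MP_72b52d_lc.ThinCantorSets

/-- The integers `n` such that the dyadic interval `[n / 2 ^ b, (n + 1) / 2 ^ b)` meets `E`. -/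
def dyadicCells (E : Set ℝ) (b : ℕ) : Set ℤ :=
  {n | ∃ x ∈ E, (n : ℝ) / 2 ^ b ≤ x ∧ x < ((n : ℝ) + 1) / 2 ^ b}

/-- `E` has lower box dimension less than one: for some `δ > 0` there are infinitely many `b` such
that `E` meets at most `2 ^ ((1 - δ) b)` dyadic intervals of length `2 ^ (-b)`. -/
def LowerBoxDimLTOne (E : Set ℝ) : Prop :=
  ∃ δ : ℝ, 0 < δ ∧ ∃ᶠ b : ℕ in atTop,
    (dyadicCells E b).Finite ∧ ((dyadicCells E b).ncard : ℝ) ≤ (2 : ℝ) ^ ((1 - δ) * b)

/-- A Cantor set of reals: a set homeomorphic to the middle-thirds Cantor set. -/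
def IsCantor (K : Set ℝ) : Prop := Nonempty (K ≃ₜ cantorSet)

/-- The translate `A + t`. -/
def shift (A : Set ℝ) (t : ℝ) : Set ℝ := (fun x => x + t) '' A

theorem mem_shift {A : Set ℝ} {t y : ℝ} : y ∈ shift A t ↔ y - t ∈ A := by
  unfold shift
  constructor
  · rintro ⟨x, hx, rfl⟩
    simpa using hx
  · intro h
    exact ⟨y - t, h, by simp⟩

theorem dyadicCells_eq (E : Set ℝ) (b : ℕ) : dyadicCells E b = MP72b52d.cells E b := by
  ext n
  unfold dyadicCells MP72b52d.cells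
  simp only [mem_ofPred_eq]
  have hb : (0 : ℝ) < 2 ^ b := by positivity
  constructor
  · rintro ⟨x, hx, h1, h2⟩
    refine ⟨x, hx, ?_⟩
    rw [div_le_iff₀ hb] at h1
    rw [lt_div_iff₀ hb] at h2
    rw [Int.floor_eq_iff, mul_comm]
    exact ⟨h1, h2⟩
  · rintro ⟨x, hx, h⟩
    rw [Int.floor_eq_iff, mul_comm] at h
    refine ⟨x, hx, ?_, ?_⟩
    · rw [div_le_iff₀ hb]; exact h.1
    · rw [lt_div_iff₀ hb]; exact h.2

theorem lower_iff (E : Set ℝ) : LowerBoxDimLTOne E ↔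
    ∃ δ : ℝ, 0 < δ ∧ ∃ᶠ b : ℕ in atTop, MP72b52d.Good E δ b := by
  unfold LowerBoxDimLTOne MP72b52d.Good
  simp only [dyadicCells_eq]

theorem lower_mono {E E' : Set ℝ} (h : E ⊆ E') (hE : LowerBoxDimLTOne E') :
    LowerBoxDimLTOne E := by
  rw [lower_iff] at hE ⊢
  obtain ⟨δ, hδ, hf⟩ := hE
  exact ⟨δ, hδ, hf.mono (fun b hb => hb.mono h)⟩

theorem lower_empty : LowerBoxDimLTOne ∅ := by
  refine ⟨1, one_pos, ?_⟩
  apply Filter.Eventually.frequently
  filter_upwards with b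
  have : dyadicCells ∅ b = ∅ := by
    ext n; simp [dyadicCells]
  rw [this]
  rw [ncard_empty]
  exact ⟨finite_empty, by rw [Nat.cast_zero]; positivity⟩

theorem main (E : ℕ → Set ℝ) (hE : ∀ l, LowerBoxDimLTOne (E l)) :
    ∃ X : Set ℝ, ¬ IsMeagre X ∧ ∀ l, ∃ N : ℕ, ∀ t : ℝ, (X ∩ shift (E l) t).encard ≤ N := by
  choose δ hδ hG using fun l => (lower_iff (E l)).mp (hE l)
  obtain ⟨X, hX, hN⟩ := MP72b52d.exists_nonmeagre hδ hG
  refine ⟨X, hX, fun l => ?_⟩
  obtain ⟨N, hN⟩ := hN l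
  refine ⟨N, fun t => ?_⟩
  have : X ∩ shift (E l) t = {x ∈ X | x - t ∈ E l} := by
    ext x
    rw [mem_inter_iff, mem_shift]
    rfl
  rw [this]
  exact hN t

theorem not_isolated {K : Set ℝ} (hK : IsCantor K) (x : K) : (𝓝[≠] x).NeBot := by
  obtain ⟨φ⟩ := hK
  let ψ : K ≃ₜ (ℕ → Bool) := φ.trans cantorSetHomeomorphNatToBool
  rw [← mem_closure_iff_nhdsWithin_neBot, mem_closure_iff]
  intro O hO hxO
  have hO' : IsOpen (ψ.symm ⁻¹' O) := hO.preimage ψ.symm.continuous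
  have hxO' : ψ x ∈ ψ.symm ⁻¹' O := by simpa using hxO
  obtain ⟨I, u, h1, h2⟩ := isOpen_pi_iff.mp hO' (ψ x) hxO'
  obtain ⟨m, hm⟩ := Infinite.exists_notMem_finset I
  let z : ℕ → Bool := Function.update (ψ x) m (!(ψ x m))
  have hz : z ∈ ψ.symm ⁻¹' O := by
    apply h2
    intro i hi
    have him : i ≠ m := fun h => hm (h ▸ hi)
    simp only [z]
    rw [Function.update_of_ne him]
    exact (h1 i hi).2
  refine ⟨ψ.symm z, hz, ?_⟩
  intro h
  have h3 : z = ψ x := by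
    have : ψ (ψ.symm z) = ψ x := congrArg ψ h
    simpa using this
  have h4 := congrFun h3 m
  simp only [z, Function.update_self] at h4
  cases h5 : ψ x m <;> simp [h5] at h4

theorem finite_meagre {K : Set ℝ} (hK : IsCantor K) {A : Set K} (hA : A.Finite) : IsMeagre A := by
  have h1 : ∀ x : K, IsMeagre ({x} : Set K) := by
    intro x
    have := not_isolated hK x
    apply IsNowhereDense.isMeagre
    rw [isClosed_singleton.isNowhereDense_iff]
    exact interior_singleton x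
  have h2 : A = ⋃ x ∈ A, {x} := by simp
  rw [h2]
  exact isMeagre_biUnion hA.countable (fun x _ => h1 x)

theorem portions (K : Set ℝ) (hK : IsCantor K)
    (hd : ∀ W : Set ℝ, IsOpen W → (K ∩ W).Nonempty →
      ∃ V : Set ℝ, IsOpen V ∧ V ⊆ W ∧ (K ∩ V).Nonempty ∧ LowerBoxDimLTOne (K ∩ V)) :
    ∃ X : Set ℝ, ¬ IsMeagre X ∧
      ∀ t : ℝ, IsMeagre ((Subtype.val : K → ℝ) ⁻¹' (shift X t)) := by
  classical
  let e : ℕ ≃ ℚ × ℚ := (Denumerable.eqv (ℚ × ℚ)).symm
  let I : ℕ → Set ℝ := fun l => Ioo ((e l).1 : ℝ) ((e l).2 : ℝ)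
  let E : ℕ → Set ℝ := fun l => if LowerBoxDimLTOne (K ∩ I l) then K ∩ I l else ∅
  have hE : ∀ l, LowerBoxDimLTOne (E l) := by
    intro l
    simp only [E]
    split_ifs with h
    · exact h
    · exact lower_empty
  obtain ⟨X, hX, hN⟩ := main E hE
  refine ⟨X, hX, fun t => ?_⟩
  let W : Set ℝ := ⋃ l ∈ {l | LowerBoxDimLTOne (K ∩ I l)}, I l
  have hWo : IsOpen W := isOpen_biUnion (fun l _ => isOpen_Ioo)
  have hcover : (Subtype.val : K → ℝ) ⁻¹' (shift X t) ⊆
      ((Subtype.val : K → ℝ) ⁻¹' Wᶜ) ∪ ⋃ l, {x : K | (x : ℝ) ∈ E l ∧ (x : ℝ) ∈ shift X t} := by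
    intro x hx
    by_cases hxW : (x : ℝ) ∈ W
    · right
      simp only [W, mem_iUnion, exists_prop] at hxW
      obtain ⟨l, hl, hxl⟩ := hxW
      have hl' : LowerBoxDimLTOne (K ∩ I l) := hl
      rw [mem_iUnion]
      refine ⟨l, ?_, hx⟩
      simp only [E]
      rw [if_pos hl']
      exact ⟨x.2, hxl⟩
    · left; exact hxW
  suffices hsuff : IsMeagre (((Subtype.val : K → ℝ) ⁻¹' Wᶜ) ∪
      ⋃ l, {x : K | (x : ℝ) ∈ E l ∧ (x : ℝ) ∈ shift X t}) from hsuff.mono hcover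
  have hfin : ∀ l, {x : K | (x : ℝ) ∈ E l ∧ (x : ℝ) ∈ shift X t}.Finite := by
    intro l
    obtain ⟨N, hN⟩ := hN l
    have h1 : (X ∩ shift (E l) (-t)).Finite :=
      Set.finite_of_encard_le_coe (hN (-t))
    have h2 : (fun x : K => (x : ℝ) - t) '' {x : K | (x : ℝ) ∈ E l ∧ (x : ℝ) ∈ shift X t} ⊆
        X ∩ shift (E l) (-t) := by
      rintro _ ⟨x, ⟨hx1, hx2⟩, rfl⟩
      refine ⟨mem_shift.mp hx2, ?_⟩
      rw [mem_shift]
      simpa using hx1
    refine Set.Finite.of_finite_image (h1.subset h2) ?_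
    intro x _ y _ hxy
    apply Subtype.ext
    have : (x : ℝ) - t = (y : ℝ) - t := hxy
    linarith
  have hm2 : IsMeagre (⋃ l, {x : K | (x : ℝ) ∈ E l ∧ (x : ℝ) ∈ shift X t}) :=
    isMeagre_iUnion (fun l => finite_meagre hK (hfin l))
  have hm1 : IsMeagre ((Subtype.val : K → ℝ) ⁻¹' Wᶜ) := by
    apply IsNowhereDense.isMeagre
    have hcl : IsClosed ((Subtype.val : K → ℝ) ⁻¹' Wᶜ) :=
      (hWo.isClosed_compl).preimage continuous_subtype_val
    rw [hcl.isNowhereDense_iff]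
    by_contra hne
    obtain ⟨x, hx⟩ := nonempty_iff_ne_empty.mpr hne
    obtain ⟨O, hO, hOeq⟩ := isOpen_induced_iff.mp
      (isOpen_interior (s := (Subtype.val : K → ℝ) ⁻¹' Wᶜ))
    have hxO : (x : ℝ) ∈ O := by
      have : x ∈ (Subtype.val : K → ℝ) ⁻¹' O := by rw [hOeq]; exact hx
      exact this
    obtain ⟨V, hVo, hVO, ⟨y, hyK, hyV⟩, hVd⟩ := hd O hO ⟨x, x.2, hxO⟩
    obtain ⟨r, hr, hball⟩ := Metric.isOpen_iff.mp hVo y hyV
    obtain ⟨p, hp1, hp2⟩ := exists_rat_btwn (show y - r < y by linarith)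
    obtain ⟨q, hq1, hq2⟩ := exists_rat_btwn (show y < y + r by linarith)
    have hIV : Ioo (p : ℝ) q ⊆ V := by
      intro z hz
      apply hball
      rw [Metric.mem_ball, Real.dist_eq, abs_lt]
      constructor
      · linarith [hz.1]
      · linarith [hz.2]
    have hl : I (e.symm (p, q)) = Ioo (p : ℝ) q := by simp [I]
    have hyW : y ∈ W := by
      simp only [W, mem_iUnion, exists_prop]
      refine ⟨e.symm (p, q), ?_, ?_⟩
      · show LowerBoxDimLTOne (K ∩ I (e.symm (p, q)))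
        rw [hl]
        exact lower_mono (inter_subset_inter_right K hIV) hVd
      · rw [hl]; exact ⟨hp2, hq1⟩
    have hyI : (⟨y, hyK⟩ : K) ∈ (Subtype.val : K → ℝ) ⁻¹' O := hVO hyV
    rw [hOeq] at hyI
    exact (interior_subset hyI) hyW
  exact hm1.union hm2

/-- (1) For countably many sets of lower box dimension less than one there is one non-meagre set
`X` meeting all translates of each of them in boundedly many points.
(2) The negated form of the question holds for every Cantor set in which the portions of lower box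
dimension less than one are dense.
(3) The middle-thirds Cantor set has lower box dimension less than one. -/
theorem result :
    (∀ E : ℕ → Set ℝ, (∀ l, LowerBoxDimLTOne (E l)) →
      ∃ X : Set ℝ, ¬ IsMeagre X ∧ ∀ l, ∃ N : ℕ, ∀ t : ℝ, (X ∩ shift (E l) t).encard ≤ N) ∧
    (∀ K : Set ℝ, IsCantor K →
      (∀ W : Set ℝ, IsOpen W → (K ∩ W).Nonempty →
        ∃ V : Set ℝ, IsOpen V ∧ V ⊆ W ∧ (K ∩ V).Nonempty ∧ LowerBoxDimLTOne (K ∩ V)) →
      ∃ X : Set ℝ, ¬ IsMeagre X ∧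
        ∀ t : ℝ, IsMeagre ((Subtype.val : K → ℝ) ⁻¹' (shift X t))) ∧
    LowerBoxDimLTOne cantorSet :=
  ⟨main, portions, (lower_iff _).mpr ⟨1 / 6, by norm_num, MP72b52d.cantor_good⟩⟩

end Pool.Agent.Results.MP_72b52d_lc.ThinCantorSets
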